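import Pool.Agent.helper68.SF.SpecW

/-!
Module WS of project SF: the wave is smooth, solves the wave equation, its time derivative, oddness,
and its `x`-derivative term by term.
-/

set_option autoImplicit false

namespace SF

open Pool.Agent.helper72.Sq
open scoped ContDiff
open Filter Topology

theorem WS_locX {f g : ℝ → ℝ → ℝ → ℝ} {U : Set (ℝ × ℝ × ℝ)} (hU : IsOpen U)
    (h : ∀ p ∈ U, f p.1 p.2.1 p.2.2 = g p.1 p.2.1 p.2.2) :
    ∀ p ∈ U, dX f p.1 p.2.1 p.2.2 = dX g p.1 p.2.1 p.2.2 := by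
  rintro ⟨s, x, y⟩ hp
  refine Filter.EventuallyEq.deriv_eq ?_
  have hc : Continuous fun t : ℝ => ((s, t, y) : ℝ × ℝ × ℝ) := by fun_prop
  have := (hc.continuousAt (x := x)).eventually (hU.mem_nhds hp)
  filter_upwards [this] with t ht using h _ ht

theorem WS_locS {f g : ℝ → ℝ → ℝ → ℝ} {U : Set (ℝ × ℝ × ℝ)} (hU : IsOpen U)
    (h : ∀ p ∈ U, f p.1 p.2.1 p.2.2 = g p.1 p.2.1 p.2.2) :
    ∀ p ∈ U, dS f p.1 p.2.1 p.2.2 = dS g p.1 p.2.1 p.2.2 := by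
  rintro ⟨s, x, y⟩ hp
  refine Filter.EventuallyEq.deriv_eq ?_
  have hc : Continuous fun t : ℝ => ((t, x, y) : ℝ × ℝ × ℝ) := by fun_prop
  have := (hc.continuousAt (x := s)).eventually (hU.mem_nhds hp)
  filter_upwards [this] with t ht using h _ ht

theorem WS_locY {f g : ℝ → ℝ → ℝ → ℝ} {U : Set (ℝ × ℝ × ℝ)} (hU : IsOpen U)
    (h : ∀ p ∈ U, f p.1 p.2.1 p.2.2 = g p.1 p.2.1 p.2.2) :
    ∀ p ∈ U, dY f p.1 p.2.1 p.2.2 = dY g p.1 p.2.1 p.2.2 := by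
  rintro ⟨s, x, y⟩ hp
  refine Filter.EventuallyEq.deriv_eq ?_
  have hc : Continuous fun t : ℝ => ((s, x, t) : ℝ × ℝ × ℝ) := by fun_prop
  have := (hc.continuousAt (x := y)).eventually (hU.mem_nhds hp)
  filter_upwards [this] with t ht using h _ ht

theorem WS_openHH : IsOpen {p : ℝ × ℝ × ℝ | 0 < p.2.2} :=
  isOpen_lt continuous_const (continuous_snd.comp continuous_snd)

theorem WS_lin (hBS : BS_stmt) (c : ℝ) {f g : ℝ → ℝ → ℝ → ℝ} (hf : Sm f) (hg : Sm g) :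
    Sm (fun s x y => c * f s x y + g s x y) ∧ ∀ s x y, 0 < y →
      dS (fun s x y => c * f s x y + g s x y) s x y = c * dS f s x y + dS g s x y ∧
      dX (fun s x y => c * f s x y + g s x y) s x y = c * dX f s x y + dX g s x y ∧
      dY (fun s x y => c * f s x y + g s x y) s x y = c * dY f s x y + dY g s x y := by
  refine ⟨?_, fun s x y hy => ?_⟩
  · exact (contDiffOn_const.mul hf).add hg
  · obtain ⟨-, -, -, h1⟩ := hBS f hf
    obtain ⟨-, -, -, h2⟩ := hBS g hg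
    obtain ⟨a1, a2, a3, -⟩ := h1 s x y hy
    obtain ⟨b1, b2, b3, -⟩ := h2 s x y hy
    exact ⟨((a1.const_mul c).add b1).deriv, ((a2.const_mul c).add b2).deriv,
      ((a3.const_mul c).add b3).deriv⟩

theorem WS_wv (hBS : BS_stmt) (c : ℝ) {f g : ℝ → ℝ → ℝ → ℝ} (hf : Sm f) (hg : Sm g)
    (wf : Wv f) (wg : Wv g) : Wv (fun s x y => c * f s x y + g s x y) := by
  obtain ⟨-, h1⟩ := WS_lin hBS c hf hg
  obtain ⟨fS, fX, fY, -⟩ := hBS f hf
  obtain ⟨gS, gX, gY, -⟩ := hBS g hg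
  obtain ⟨-, h2⟩ := WS_lin hBS c fS gS
  obtain ⟨-, h3⟩ := WS_lin hBS c fX gX
  obtain ⟨-, h4⟩ := WS_lin hBS c fY gY
  intro s x y hy
  have e1 := WS_locS WS_openHH (f := dS (fun s x y => c * f s x y + g s x y))
    (g := fun s x y => c * dS f s x y + dS g s x y) (fun p hp => (h1 _ _ _ hp).1) (s, x, y) hy
  have e2 := WS_locX WS_openHH (f := dX (fun s x y => c * f s x y + g s x y))
    (g := fun s x y => c * dX f s x y + dX g s x y) (fun p hp => (h1 _ _ _ hp).2.1) (s, x, y) hy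
  have e3 := WS_locY WS_openHH (f := dY (fun s x y => c * f s x y + g s x y))
    (g := fun s x y => c * dY f s x y + dY g s x y) (fun p hp => (h1 _ _ _ hp).2.2) (s, x, y) hy
  simp only at e1 e2 e3
  rw [e1, e2, e3, (h2 s x y hy).1, (h3 s x y hy).2.1, (h4 s x y hy).2.2, wf s x y hy, wg s x y hy]
  ring

theorem WS_sum (hBS : BS_stmt) {ι : Type} (G : ι → ℝ → ℝ → ℝ → ℝ) (F : Finset ι)
    (hG : ∀ v ∈ F, Sm (G v) ∧ Wv (G v)) :
    Sm (fun s x y => ∑ v ∈ F, G v s x y) ∧ Wv (fun s x y => ∑ v ∈ F, G v s x y) ∧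
    ∀ s x y, 0 < y → dS (fun s x y => ∑ v ∈ F, G v s x y) s x y = ∑ v ∈ F, dS (G v) s x y ∧
      dX (fun s x y => ∑ v ∈ F, G v s x y) s x y = ∑ v ∈ F, dX (G v) s x y := by
  classical
  induction F using Finset.induction_on with
  | empty =>
    refine ⟨?_, ?_, ?_⟩
    · simpa [Sm] using (contDiffOn_const : ContDiffOn ℝ ∞ (fun _ : ℝ × ℝ × ℝ => (0 : ℝ)) _)
    · intro s x y _
      simp [dS, dX, dY]
    · intro s x y _
      simp [dS, dX]
  | insert a F ha ih =>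
    obtain ⟨i1, i2, i3⟩ := ih fun v hv => hG v (Finset.mem_insert_of_mem hv)
    obtain ⟨g1, g2⟩ := hG a (Finset.mem_insert_self _ _)
    have key : (fun s x y => ∑ v ∈ insert a F, G v s x y) =
        fun s x y => 1 * G a s x y + ∑ v ∈ F, G v s x y := by
      funext s x y
      rw [Finset.sum_insert ha, one_mul]
    rw [key]
    obtain ⟨k1, k2⟩ := WS_lin hBS 1 g1 i1
    refine ⟨k1, WS_wv hBS 1 g1 i1 g2 i2, fun s x y hy => ?_⟩
    rw [(k2 s x y hy).1, (k2 s x y hy).2.1, (i3 s x y hy).1, (i3 s x y hy).2,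
      Finset.sum_insert ha, Finset.sum_insert ha]
    simp

theorem WS_YY_pos {v : ℤ × ℤ} (hMG : MG_stmt) (hv : v ∈ Pv) {x y : ℝ} (hy : 0 < y) :
    0 < YY v x y := by
  rw [hMG.2.2.2.2.1 v hv x y hy]
  exact div_pos hy (hMG.2.2.1 v hv x y hy)

/-- the function transported by `γ_v` -/
noncomputable def WS_h (g : ℝ → ℝ) (x0 s x y : ℝ) : ℝ := psi x0 * b0 g s y + RR g s x y x0

theorem WS_h_props (hBS : BS_stmt) (hRA : RA_stmt) (hB01 : B01_stmt) (g : ℝ → ℝ) (hg : Prof g)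
    (x0 : ℝ) : Sm (WS_h g x0) ∧ Wv (WS_h g x0) ∧ ∀ s x y, 0 < y →
      dS (WS_h g x0) s x y = WS_h (DD g) x0 s x y := by
  obtain ⟨⟨s1, w1, d1⟩, -⟩ := hB01 g hg
  obtain ⟨s2, w2, d2⟩ := hRA g hg x0
  obtain ⟨k1, k2⟩ := WS_lin hBS (psi x0) s1 s2
  refine ⟨k1, WS_wv hBS (psi x0) s1 s2 w1 w2, fun s x y hy => ?_⟩
  have := (k2 s x y hy).1
  rw [d1 s x y hy, (d2 s x y hy).2.1] at this
  exact this

theorem WS_det {v : ℤ × ℤ} (hv : v ∈ Pv) :
    ((Int.gcdB v.1 v.2 : ℤ) : ℝ) * (v.2 : ℝ) - (-(Int.gcdA v.1 v.2 : ℝ)) * (v.1 : ℝ) = 1 := by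
  have h1 := Int.gcd_eq_gcd_ab v.1 v.2
  have h2 : Int.gcd v.1 v.2 = 1 := hv
  rw [h2] at h1
  have h3 : ((1 : ℕ) : ℤ) = v.1 * Int.gcdA v.1 v.2 + v.2 * Int.gcdB v.1 v.2 := h1
  have h4 : (1 : ℝ) = v.1 * Int.gcdA v.1 v.2 + v.2 * Int.gcdB v.1 v.2 := by
    exact_mod_cast h3
  linarith

theorem WS_FF {v : ℤ × ℤ} (hv : v ∈ Pv) (g : ℝ → ℝ) :
    FF g v = Mb (Int.gcdB v.1 v.2) (-(Int.gcdA v.1 v.2 : ℝ)) v.1 v.2 (WS_h g (XX v 0 1)) := by
  funext s x y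
  unfold FF Mb WS_h
  rw [WS_det hv, one_mul]
  rfl

theorem WS_term (hBS : BS_stmt) (hRA : RA_stmt) (hB01 : B01_stmt) (hMOB : MOB_stmt)
    (hMG : MG_stmt) (g : ℝ → ℝ) (hg : Prof g) {v : ℤ × ℤ} (hv : v ∈ Pv) :
    Sm (FF g v) ∧ Wv (FF g v) ∧ ∀ s x y, 0 < y → dS (FF g v) s x y = FF (DD g) v s x y := by
  obtain ⟨h1, h2, h3⟩ := WS_h_props hBS hRA hB01 g hg (XX v 0 1)
  have hd : 0 < ((Int.gcdB v.1 v.2 : ℤ) : ℝ) * (v.2 : ℝ) - (-(Int.gcdA v.1 v.2 : ℝ)) * (v.1 : ℝ) := by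
    rw [WS_det hv]; exact one_pos
  obtain ⟨m1, m2⟩ := hMOB _ _ _ _ hd _ h1 h2
  refine ⟨by rw [WS_FF hv]; exact m1, by rw [WS_FF hv]; exact m2, fun s x y hy => ?_⟩
  exact h3 s (XX v x y) (YY v x y) (WS_YY_pos hMG hv hy)

theorem WS (hLF : LF_stmt) (hRA : RA_stmt) (hB01 : B01_stmt) (hMOB : MOB_stmt) (hMG : MG_stmt)
    (hMS : MS_stmt) (hPJ : PJ_stmt) (hRO : RO_stmt) (hBS : BS_stmt) : WS_stmt := by
  intro g hg
  have hterm := fun v (hv : v ∈ Pv) => WS_term hBS hRA hB01 hMOB hMG g hg hv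
  -- local representation
  have hloc : ∀ s0 x0 y0 : ℝ, 0 < y0 → ∃ (U : Set (ℝ × ℝ × ℝ)) (F : Finset (ℤ × ℤ)), IsOpen U ∧
      (s0, x0, y0) ∈ U ∧ (∀ p ∈ U, 0 < p.2.2) ∧ (∀ v ∈ F, v ∈ Pv) ∧
      ∀ v ∈ Pv, v ∉ F → ∀ p ∈ U, FF g v p.1 p.2.1 p.2.2 = 0 := by
    intro s0 x0 y0 hy0
    have hS : 0 < |s0| + 1 := by positivity
    have hT : 0 < |x0| + y0 + 1 + 2 / y0 := by positivity
    have hfin := hLF g hg 0 1 (|s0| + 1) (|x0| + y0 + 1 + 2 / y0) one_pos hS hT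
    refine ⟨{p | |p.1| < |s0| + 1 ∧ |p.2.1| < |x0| + y0 + 1 + 2 / y0 ∧
      1 / (|x0| + y0 + 1 + 2 / y0) < p.2.2 ∧ p.2.2 < |x0| + y0 + 1 + 2 / y0}, hfin.toFinset,
      ?_, ?_, ?_, ?_, ?_⟩
    · have c1 : Continuous fun p : ℝ × ℝ × ℝ => |p.1| := by fun_prop
      have c2 : Continuous fun p : ℝ × ℝ × ℝ => |p.2.1| := by fun_prop
      have c3 : Continuous fun p : ℝ × ℝ × ℝ => p.2.2 := by fun_prop
      exact (isOpen_lt c1 continuous_const).inter ((isOpen_lt c2 continuous_const).inter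
        ((isOpen_lt continuous_const c3).inter (isOpen_lt c3 continuous_const)))
    · have h1 : 0 < 2 / y0 := by positivity
      have h2 := abs_nonneg x0
      refine ⟨by simp, by simp only; linarith, ?_, by simp only; linarith⟩
      simp only
      rw [div_lt_iff₀ hT]
      have : y0 * (2 / y0) = 2 := by field_simp
      nlinarith [mul_nonneg hy0.le h2, mul_pos hy0 hy0]
    · rintro p ⟨-, -, h, -⟩
      exact lt_trans (by positivity) h
    · intro v hv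
      exact ((Set.Finite.mem_toFinset hfin).1 hv).1
    · intro v hv hvF p hp
      by_contra hne
      apply hvF
      rw [Set.Finite.mem_toFinset]
      exact ⟨hv, p.1, p.2.1, p.2.2, hp.1.le, hp.2.1.le, hp.2.2.1.le, hp.2.2.2.le, hne⟩
  -- the finite sums
  have hsum : ∀ (F : Finset (ℤ × ℤ)) (H : ℤ × ℤ → ℝ), (∀ v ∈ F, v ∈ Pv) →
      (∀ v ∈ Pv, v ∉ F → H v = 0) → ∑ᶠ v ∈ Pv, H v = ∑ v ∈ F, H v := by
    intro F H h1 h2
    refine finsum_mem_eq_sum_of_inter_support_eq H ?_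
    ext v
    simp only [Set.mem_inter_iff, Function.mem_support, Finset.mem_coe]
    constructor
    · rintro ⟨hv, hne⟩
      refine ⟨?_, hne⟩
      by_contra hF
      exact hne (h2 v hv hF)
    · rintro ⟨hv, hne⟩
      exact ⟨h1 v hv, hne⟩
  -- the local identity for the wave
  have hww : ∀ (U : Set (ℝ × ℝ × ℝ)) (F : Finset (ℤ × ℤ)), (∀ v ∈ F, v ∈ Pv) →
      (∀ v ∈ Pv, v ∉ F → ∀ p ∈ U, FF g v p.1 p.2.1 p.2.2 = 0) →
      ∀ p ∈ U, ww g p.1 p.2.1 p.2.2 = 1 / 2 * (∑ v ∈ F, FF g v p.1 p.2.1 p.2.2) + 0 := by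
    intro U F h1 h2 p hp
    unfold ww
    rw [hsum F (fun v => FF g v p.1 p.2.1 p.2.2) h1 fun v hv hF => h2 v hv hF p hp, add_zero]
  have h0 : Sm (fun _ _ _ => (0 : ℝ)) := contDiffOn_const
  have h0w : Wv (fun _ _ _ => (0 : ℝ)) := by
    intro s x y _
    simp [dS, dX, dY]
  have hW : ∀ F : Finset (ℤ × ℤ), (∀ v ∈ F, v ∈ Pv) →
      Sm (fun s x y => 1 / 2 * (∑ v ∈ F, FF g v s x y) + 0) ∧
      Wv (fun s x y => 1 / 2 * (∑ v ∈ F, FF g v s x y) + 0) ∧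
      ∀ s x y, 0 < y →
        dS (fun s x y => 1 / 2 * (∑ v ∈ F, FF g v s x y) + 0) s x y =
          1 / 2 * ∑ v ∈ F, dS (FF g v) s x y ∧
        dX (fun s x y => 1 / 2 * (∑ v ∈ F, FF g v s x y) + 0) s x y =
          1 / 2 * ∑ v ∈ F, dX (FF g v) s x y := by
    intro F hF
    obtain ⟨a1, a2, a3⟩ := WS_sum hBS (FF g) F fun v hv =>
      ⟨(hterm v (hF v hv)).1, (hterm v (hF v hv)).2.1⟩
    obtain ⟨b1, b2⟩ := WS_lin hBS (1 / 2) a1 h0
    refine ⟨b1, WS_wv hBS (1 / 2) a1 h0 a2 h0w, fun s x y hy => ?_⟩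
    have z1 : dS (fun _ _ _ => (0 : ℝ)) s x y = 0 := by simp [dS]
    have z2 : dX (fun _ _ _ => (0 : ℝ)) s x y = 0 := by simp [dX]
    refine ⟨?_, ?_⟩
    · rw [(b2 s x y hy).1, (a3 s x y hy).1, z1, add_zero]
    · rw [(b2 s x y hy).2.1, (a3 s x y hy).2, z2, add_zero]
  refine ⟨?_, ?_, ?_, ?_, ?_⟩
  · -- smooth
    rintro ⟨s, x, y⟩ hy
    obtain ⟨U, F, hU, hpU, hpos, hF1, hF2⟩ := hloc s x y hy
    have h1 := (hW F hF1).1
    have h2 : ContDiffAt ℝ ∞ (fun p : ℝ × ℝ × ℝ => ww g p.1 p.2.1 p.2.2) (s, x, y) := by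
      have h3 := h1.contDiffAt (WS_openHH.mem_nhds (show (s, x, y) ∈ {p : ℝ × ℝ × ℝ | 0 < p.2.2} from hy))
      refine h3.congr_of_eventuallyEq ?_
      filter_upwards [hU.mem_nhds hpU] with p hp using hww U F hF1 hF2 p hp
    exact h2.contDiffWithinAt
  · -- wave equation
    intro s x y hy
    obtain ⟨U, F, hU, hpU, hpos, hF1, hF2⟩ := hloc s x y hy
    have e0 := hww U F hF1 hF2
    have e1 := WS_locS hU (WS_locS hU (g := fun s x y => 1 / 2 * (∑ v ∈ F, FF g v s x y) + 0) e0) _ hpU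
    have e2 := WS_locX hU (WS_locX hU (g := fun s x y => 1 / 2 * (∑ v ∈ F, FF g v s x y) + 0) e0) _ hpU
    have e3 := WS_locY hU (WS_locY hU (g := fun s x y => 1 / 2 * (∑ v ∈ F, FF g v s x y) + 0) e0) _ hpU
    have e4 := e0 _ hpU
    simp only at e1 e2 e3 e4
    rw [e1, e2, e3, e4]
    exact (hW F hF1).2.1 s x y hy
  · -- time derivative
    intro s x y hy
    obtain ⟨U, F, hU, hpU, hpos, hF1, hF2⟩ := hloc s x y hy
    have e0 := hww U F hF1 hF2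
    have e1 := WS_locS hU (g := fun s x y => 1 / 2 * (∑ v ∈ F, FF g v s x y) + 0) e0 _ hpU
    simp only at e1
    rw [e1, ((hW F hF1).2.2 s x y hy).1]
    unfold ww
    rw [hsum F (fun v => FF (DD g) v s x y) hF1]
    · congr 1
      exact Finset.sum_congr rfl fun v hv => (hterm v (hF1 v hv)).2.2 s x y hy
    · intro v hv hvF
      have z := WS_locS hU (f := FF g v) (g := fun _ _ _ => (0 : ℝ)) (hF2 v hv hvF) _ hpU
      simp only at z
      rw [← (hterm v hv).2.2 s x y hy, z]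
      simp [dS]
  · -- oddness
    intro s x y hy
    have hbij : Set.BijOn (fun v : ℤ × ℤ => (-v.1, v.2)) Pv Pv := by
      refine ⟨?_, ?_, ?_⟩
      · intro v hv
        have : Int.gcd (-v.1) v.2 = 1 := by rw [Int.neg_gcd]; exact hv
        exact this
      · intro v _ w _ h
        simp only [Prod.mk.injEq, neg_inj] at h
        exact Prod.ext h.1 h.2
      · intro v hv
        refine ⟨(-v.1, v.2), ?_, by simp⟩
        have : Int.gcd (-v.1) v.2 = 1 := by rw [Int.neg_gcd]; exact hv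
        exact this
    have key : ∑ᶠ v ∈ Pv, FF g v s (-x) y = ∑ᶠ v ∈ Pv, -FF g v s x y := by
      refine finsum_mem_eq_of_bijOn _ hbij ?_
      intro v hv
      obtain ⟨-, -, ⟨n, hn⟩, -⟩ := hMS v hv
      have hY : 0 < YY v (-x) y := WS_YY_pos hMG hv hy
      have h1 := hn x y hy
      have h2 := hn 0 1 one_pos
      rw [neg_zero] at h2
      simp only [FF]
      rw [h2.1, h1.1, h1.2, hPJ.2.1, hPJ.1]
      rw [h1.2] at hY
      have r1 := (hRO g hg s (-XX (-v.1, v.2) x y) (YY (-v.1, v.2) x y) (-XX (-v.1, v.2) 0 1) hY).2 n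
      have r2 := (hRO g hg s (XX (-v.1, v.2) x y) (YY (-v.1, v.2) x y) (XX (-v.1, v.2) 0 1) hY).1
      rw [r1, r2]
      ring
    unfold ww
    obtain ⟨U, F, hU, hpU, hpos, hF1, hF2⟩ := hloc s x y hy
    have q1 := hsum F (fun v => -FF g v s x y) hF1 fun v hv hvF => by
      rw [neg_eq_zero]; exact hF2 v hv hvF _ hpU
    have q2 := hsum F (fun v => FF g v s x y) hF1 fun v hv hvF => hF2 v hv hvF _ hpU
    rw [key, q1, q2, Finset.sum_neg_distrib]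
    ring
  · -- the x-derivative
    intro s x y hy
    obtain ⟨U, F, hU, hpU, hpos, hF1, hF2⟩ := hloc s x y hy
    have e0 := hww U F hF1 hF2
    have e1 := WS_locX hU (g := fun s x y => 1 / 2 * (∑ v ∈ F, FF g v s x y) + 0) e0 _ hpU
    simp only at e1
    have hz : ∀ v ∈ Pv, v ∉ F → dX (FF g v) s x y = 0 := by
      intro v hv hvF
      have z := WS_locX hU (f := FF g v) (g := fun _ _ _ => (0 : ℝ)) (hF2 v hv hvF) _ hpU
      simp only at z
      rw [z]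
      simp [dX]
    refine ⟨F.finite_toSet.subset ?_, ?_⟩
    · rintro v ⟨hv, hne⟩
      by_contra hvF
      exact hne (hz v hv hvF)
    · rw [e1, ((hW F hF1).2.2 s x y hy).2, hsum F (fun v => dX (FF g v) s x y) hF1 hz]

end SF
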